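import Pool.Agent.L0h21.CK.R2

set_option autoImplicit false

/-! # Denef's question for formulas over polynomials with weighted centres and isolated critical
points of corank at most two, every prime

Denef's question asks whether, for every non-constant `f ∈ ℤ[x_1, …, x_n]`, every prime `p` and
every pole `T₀` of the Poincare series `P_{f,p}(T) = ∑_m a_{p,m} (p ^ (-n) T) ^ m`, the number
`t₀ = - log |T₀| / log p` is a root of the Bernstein-Sato polynomial of `f`.

Let `FX` (`Pool/Agent/L0h21/CK/FX.lean`) be the smallest class of polynomials over `ℚ`, in any number
of variables, such that
* a nonconstant polynomial `F` is in `FX` if for every point `P ∈ ℂ ^ n` one of the following holds: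
  - the fibre of `F` through `P` (for every value of `F`, not only over `0`) has normal crossings or a
    weighted centre at `P`, up to an automorphism of the affine space (`GoodPoint`, see
    `Pool/Agent/L0h21/RW/FW.lean`);
  - `P` is an isolated critical point of `F` and the corank of the Hessian matrix of `F` at `P` is at
    most two (`CorankTwoPoint`); in analytic coordinates `F - F(P)` is
    `g(x, y) + z_1 ^ 2 + … + z_(n-2) ^ 2` near `P`, with an arbitrary reduced plane curve germ `g`;
* all nonconstant polynomials `f(x, y)` in two variables are in `FX`, and so are the weighted
  homogeneous polynomials with an isolated critical point;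
* if `F(x)`, `G(y)` are in `FX`, `x` and `y` disjoint sets of variables, then `F(x) + G(y)` and
  `F(x) G(y)` are in `FX`;
* if `F` is in `FX` then `P(F)` is in `FX` for every nonconstant `P ∈ ℚ[t]`, and so is `F(φ(x))` for
  every automorphism `φ` of the affine space;
* unused variables may be dropped, variables may be renamed.

For every `F ∈ FX` with integral coefficients and for EVERY prime `p` (no prime is excluded) the
real part `t_0 = -log |T_0| / log p` of every pole `T_0` of the Poincare series of `F` is a root of
`b_F`.

A factorization `F - F(P) = c ∏_j f_j ^ (m_j)` has normal crossings at `P` if the gradients at `P` of
those `f_j` which vanish at `P` are linearly independent, for instance if `F - F(P)` is smooth at `P`.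
It has a weighted centre at `P` if, for some weights `w_v ≥ 0` of the coordinates, at least two of them
positive, the initial forms of the `f_j(P + x)` have normal crossings outside of the subspace `L` where
all the coordinates with positive weights vanish, and `P + L` consists of points without normal
crossings of the `f_j` (near a generic point of `L`, if not all the weights are positive, and near
`P`). The critical locus need not be isolated. For instance, the class contains the sums, products and
compositions of polynomials all of whose critical points are isolated, of corank at most two or
ordinary multiple points (the tangent cone is smooth outside of the origin).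

Method. A polynomial over `ℚ_p` is good if near every point `P` the distribution of `F - F(P)` is
invariant under the multiplication by the units near `1`, and the components of its exponential sums
have poles only at the exponents of periods of `F - F(P)`; sums, products and compositions of good
polynomials are good (`Pool/Agent/N138/RF`). Polynomials with weighted centres are good
(`Pool/Agent/L0h21/RW`), by a comparison with the initial forms on the shells around the centre. At an
isolated critical point `P` of corank at most two, `F` is compared with a polynomial
`G = g(x, y) + ∑ a_w z_w ^ 2` which coincides with `F - F(P)` to a large order in suitable polynomial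
coordinates (`Pool/Agent/L0h21/CK`): as the Jacobian ideal contains a power of the maximal ideal, `F`
and `G` have the same distribution on small balls around `P`, and the periods of `G` extend to
periods of `F - F(P)`. -/

namespace Pool.Agent.Results.MP_5d9b3c_ag.FormulasGoodPoints

open MvPolynomial Pool.Agent.W427.SMC Pool.Agent.H628R4.TP Pool.Agent.L0h21.CK

/-- **Denef's question for the class `FX` and every prime `p`.** Let `F ∈ FX`, let `b` satisfy a
functional equation `b(s) F ^ s = P(s) F ^ (s + 1)`, for instance `b = b_F`, and let `p` be a prime.
The Poincare series of `F` is the expansion at `0` of a rational function `Φ`, and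
`b(-log |T₀| / log p) = 0` for every pole `T₀` of `Φ`, that is, for every root `T₀` of the reduced
denominator of `Φ`. -/
theorem result {V : Type} [Fintype V] (F : MvPolynomial V ℤ)
    (hF : FX V (map (Int.castRingHom ℚ) F)) (p : ℕ) [Fact p.Prime]
    (b : Polynomial ℂ) (hb : IsBFunction (map (Int.castRingHom ℂ) F) b) :
    ∃ Φ : RatFunc ℂ,
      ((Φ.denom : Polynomial ℂ) : PowerSeries ℂ) * poincare p F =
        ((Φ.num : Polynomial ℂ) : PowerSeries ℂ) ∧
      ∀ T₀ : ℂ, Φ.denom.eval T₀ = 0 →
        b.eval ((-Real.log ‖T₀‖ / Real.log p : ℝ) : ℂ) = 0 :=
  poin_of_XG F (XG_fx _ hF) b hb

end Pool.Agent.Results.MP_5d9b3c_ag.FormulasGoodPoints
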