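import Pool.Agent.L0h21.CK.Q7

set_option autoImplicit false

/-! # Denef's question for isolated singularities of corank at most two, every prime

Denef's question asks whether, for every non-constant `F ∈ ℤ[x_1, …, x_n]`, every prime `p` and
every pole `T₀` of the Poincare series `P_{F,p}(T) = ∑_m a_{p,m} (p ^ (-n) T) ^ m`, the number
`t₀ = - log |T₀| / log p` is a root of the Bernstein-Sato polynomial of `F`.

Here this is proved, for EVERY prime `p` (no prime is excluded) and in every number `n` of variables,
for all non-constant polynomials `F` such that the singular points of the hypersurface `F = 0` in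
`ℂ ^ n` are isolated (there are finitely many of them) and the corank `n - rank (∂_u ∂_v F(P))` of the
Hessian matrix at each one of them is at most two. For `n ≤ 2` there is no condition on the Hessian
(these are the reduced plane curves: Loeser's theorem); for `n = 3` the condition is that all the
singular points are double points. In Arnold's classification all the singularities of the series
`A`, `D`, `E`, `J`, `X`, `Y`, `Z`, `W`, `T_{p,q,2}` and, more generally, all the germs
`g(x, y) + z_1 ^ 2 + … + z_{n-2} ^ 2`, in arbitrary analytic coordinates, for an arbitrary reduced
plane curve germ `g`, have corank at most two. They are in general neither quasi-homogeneous nor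
nondegenerate with respect to a Newton polyhedron; `F` itself is not supposed to be a sum of
polynomials in disjoint sets of variables, in any coordinates.

Method. Let `P` be a singular point of `F = 0` with coordinates in `ℚ_p`.
* By the splitting lemma (truncated at a large order `k`) there are polynomial coordinates in which
  `F ≡ g(x, y) + ∑ a_w z_w ^ 2` modulo terms of order `≥ k`; by Bertini's theorem `g` may be
  chosen such that `G = g(x, y) + ∑ a_w z_w ^ 2` has no other singular point on `G = 0` (`Split`,
  `Diag`, `Pert`).
* `P` is an isolated critical point (Sard: `M5`), so by the Nullstellensatz, over `ℚ_p`, the Jacobian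
  ideal of `F` contains a power of the maximal ideal of `P`, up to a factor which does not vanish at
  `P` (`Iso`). Hence `|∇F(x)| ≥ c |x - P| ^ M` near `P`, and a comparison of `F` and `G` on small
  polydiscs whose radii tend to zero at `P` shows that `F` and `G` have the SAME distribution on
  every small ball with the centre `P` (`Grad`, `Gradphi`, `Law`, `Chart`).
* So the local exponential sums, with all multiplicative characters, are those of
  `g(x, y) + ∑ a_w z_w ^ 2`, and by the theorems of `Pool/Agent/N138/RF` their poles are exponents of
  periods of `G`.
* The periods of `G` extend to formal periods (continuous functionals on the formal power series), as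
  the singular point is isolated (`F1`); formal periods are invariant under formal changes of
  coordinates (`FJ`) and they can be continued to every perturbation of high order:
  `∫ h exp(-τ (G + R)) = ∑_j (-τ) ^ j / j! ∫ R ^ j h exp(-τ G)` (`F2a`, `F2b`, `Jac`). Exponents of
  periods of `F` are roots of `b_F`. -/

namespace Pool.Agent.Results.MP_5d9b3c_ag.IsolatedCorankTwo

open MvPolynomial Pool.Agent.W427.SMC Pool.Agent.H628R4.TP

/-- **Denef's question for isolated singularities of corank at most two and every prime `p`.** Let
`F` be a nonconstant polynomial with integral coefficients such that the set of the singular points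
of `F = 0` in `ℂ ^ V` is finite and the rank of the Hessian matrix of `F` at each one of them is at
least `|V| - 2`. Let `b` satisfy a functional equation `b(s) F ^ s = P(s) F ^ (s + 1)`, for instance
`b = b_F`, and let `p` be a prime. The Poincare series of `F` is the expansion at `0` of a rational
function `Φ`, and `b(-log |T₀| / log p) = 0` for every pole `T₀` of `Φ`, that is, for every root `T₀`
of the reduced denominator of `Φ`. -/
theorem result {V : Type} [Fintype V] (F : MvPolynomial V ℤ) (hF : F.totalDegree ≠ 0)
    (hiso : {P : V → ℂ | aeval P F = 0 ∧ ∀ v, aeval P (pderiv v F) = 0}.Finite)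
    (hrank : ∀ P : V → ℂ, aeval P F = 0 → (∀ v, aeval P (pderiv v F) = 0) →
      Fintype.card V ≤ (Matrix.of fun u v => aeval P (pderiv u (pderiv v F))).rank + 2)
    (p : ℕ) [Fact p.Prime] (b : Polynomial ℂ)
    (hb : IsBFunction (map (Int.castRingHom ℂ) F) b) :
    ∃ Φ : RatFunc ℂ,
      ((Φ.denom : Polynomial ℂ) : PowerSeries ℂ) * poincare p F =
        ((Φ.num : Polynomial ℂ) : PowerSeries ℂ) ∧
      ∀ T₀ : ℂ, Φ.denom.eval T₀ = 0 →
        b.eval ((-Real.log ‖T₀‖ / Real.log p : ℝ) : ℂ) = 0 :=
  Pool.Agent.L0h21.CK.poin_iso F hF hiso hrank p b hb

end Pool.Agent.Results.MP_5d9b3c_ag.IsolatedCorankTwo
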