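import Pool.Agent.L0h21.SN.Pad7

/-!
# Poles of Igusa's Poincare series: multi-cones over normal crossing divisors, every prime

Denef's question asks whether, for every non-constant `f ∈ ℤ[x_1, …, x_n]`, every prime `p` and
every pole `T₀` of the Poincare series `P_{f,p}(T) = ∑_m a_{p,m} (p ^ (-n) T) ^ m`, the number
`t₀ = - log |T₀| / log p` is a root of the Bernstein-Sato polynomial of `f`.

We prove this, for EVERY prime `p` (no prime is excluded), for all polynomials
`F = c * ∏_j f_j ^ (m_j)` with integral coefficients, `c ≠ 0`, `m_j ≥ 1`, for which there are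
disjoint blocks of variables, each with at least two variables and with positive weights, such that

* every `f_j` is weighted homogeneous in the variables of every block;
* at a point `P` of `ℂ ^ n`, the gradients of those `f_j` which vanish at `P` are linearly
  independent if and only if no block of coordinates of `P` is zero.

So the divisor of `F` has simple normal crossings, with arbitrary multiplicities, exactly outside
the union of the coordinate subspaces where a block of variables vanishes: it is the multi-cone over
a normal crossing divisor on a product of weighted projective spaces and an affine space.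
The singular locus of the reduced divisor can have any dimension.

Examples: products of arbitrary powers of (weighted) homogeneous forms which cross normally outside
of the origin (one block, all variables); families of such products with parameters (one block,
the parameters are the other variables); generic multihomogeneous forms.
-/

set_option autoImplicit false

namespace Pool.Agent.Results.MP_5d9b3c_ag.MultiConesNormalCrossings

open MvPolynomial Pool.Agent.W427.SMC Pool.Agent.H628R4.TP

/-- The hypersurfaces `{f_j = 0}`, `j : J`, have normal crossings at the point `P` of `ℂ ^ V`: the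
gradients at `P` of those `f_j` which vanish at `P` are linearly independent. -/
def NormalCrossingsAt {V J : Type} (f : J → MvPolynomial V ℤ) (P : V → ℂ) : Prop :=
  LinearIndependent ℂ fun (j : {j : J // aeval P (f j) = 0}) (v : V) => aeval P (pderiv v (f j.1))

/-- Let `F = c * ∏_j f_j ^ (m_j)`, with nonconstant `f_j` with integral coefficients, `m_j > 0` and
`c ≠ 0`. The block `i` consists of the variables `v` with `0 < w i v`, and `w i v` is the weight of
the variable `v`. The blocks are disjoint, and each one has at least two variables. Assume that all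
the `f_j` are weighted homogeneous with respect to all the weights `w i`, and that the `f_j` have
normal crossings exactly at the points `P` none of whose blocks of coordinates is zero.
Then, for every prime `p`, the Poincare series of `F` is a rational function `Φ`, and for every pole
`T₀` of `Φ` the number `- log |T₀| / log p` is a root of every polynomial `b` which satisfies a
functional equation `b(s) F ^ s = P(s) F ^ (s + 1)` with `P(s)` in the Weyl algebra over `ℂ` with
`s` adjoined; in particular, of the Bernstein-Sato polynomial of `F`. -/
theorem result {V J ι : Type} [Fintype V] [Fintype J] [Fintype ι]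
    (w : ι → V → ℕ) (hdisj : ∀ v i i', 0 < w i v → 0 < w i' v → i = i')
    (htwo : ∀ i, ∃ v v', v ≠ v' ∧ 0 < w i v ∧ 0 < w i v')
    (f : J → MvPolynomial V ℤ) (hf : ∀ j, (f j).totalDegree ≠ 0) (e : ι → J → ℕ)
    (hhom : ∀ i j, IsWeightedHomogeneous (w i) (f j) (e i j))
    (hsnc : ∀ P : V → ℂ, NormalCrossingsAt f P ↔ ∀ i, ∃ v, 0 < w i v ∧ P v ≠ 0)
    (m : J → ℕ) (hm : ∀ j, 0 < m j) (c : ℤ) (hc : c ≠ 0)
    (F : MvPolynomial V ℤ) (hF : F = C c * ∏ j, f j ^ m j) (p : ℕ) (hp : p.Prime) :
    ∃ Φ : RatFunc ℂ,
      (Φ.denom : PowerSeries ℂ) * poincare p F = (Φ.num : PowerSeries ℂ) ∧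
      ∀ T₀ : ℂ, Φ.denom.IsRoot T₀ →
        ∀ b : Polynomial ℂ, IsBFunction (map (Int.castRingHom ℂ) F) b →
          b.IsRoot ((-Real.log ‖T₀‖ / Real.log p : ℝ) : ℂ) := by
  classical
  have : Fact p.Prime := ⟨hp⟩
  subst hF
  have hcard : ∀ i, 2 ≤ Fintype.card (Pool.Agent.L0h21.SN.Pos (w i)) := by
    intro i
    obtain ⟨v, v', h1, h2, h3⟩ := htwo i
    exact Fintype.one_lt_card_iff.mpr ⟨⟨v, h2⟩, ⟨v', h3⟩, fun h => h1 (congrArg Subtype.val h)⟩
  have hsnc' : ∀ P : V → ℂ, Pool.Agent.L0h21.SN.SNCAt' (fun j => map (Int.castRingHom ℂ) (f j)) P ↔
      ∀ i, ∃ v, 0 < w i v ∧ P v ≠ 0 := by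
    intro P
    rw [← hsnc P]
    have h1 : ∀ g : MvPolynomial V ℤ, aeval P (map (Int.castRingHom ℂ) g) = aeval P g := by
      intro g
      exact aeval_map_algebraMap ℂ P g
    unfold Pool.Agent.L0h21.SN.SNCAt' NormalCrossingsAt
    rw [← linearIndependent_equiv (Equiv.subtypeEquivRight (fun j => by rw [h1]) :
      {j // aeval P (map (Int.castRingHom ℂ) (f j)) = 0} ≃ {j // aeval P (f j) = 0})]
    have h2 : (fun (j : {j // aeval P (map (Int.castRingHom ℂ) (f j)) = 0}) (v : V) =>
        aeval P (pderiv v (map (Int.castRingHom ℂ) (f j.1)))) =
        (fun (j : {j : J // aeval P (f j) = 0}) (v : V) => aeval P (pderiv v (f j.1))) ∘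
        (Equiv.subtypeEquivRight (fun j => by rw [h1]) :
          {j // aeval P (map (Int.castRingHom ℂ) (f j)) = 0} ≃ {j // aeval P (f j) = 0}) := by
      funext j v
      rw [pderiv_map, h1]
      rfl
    rw [h2]
  exact Pool.Agent.L0h21.SN.padic_main p w hdisj hcard f hf e hhom m hm c hc hsnc'

end Pool.Agent.Results.MP_5d9b3c_ag.MultiConesNormalCrossings
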