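import Pool.Agent.L0h21.SN.PadR8

/-!
# Poles of Igusa's Poincare series: divisors with weighted centres, every prime

Denef's question asks whether, for every non-constant `f ∈ ℤ[x_1, …, x_n]`, every prime `p` and
every pole `T₀` of the Poincare series `P_{f,p}(T) = ∑_m a_{p,m} (p ^ (-n) T) ^ m`, the number
`t₀ = - log |T₀| / log p` is a root of the Bernstein-Sato polynomial of `f`.

We prove this, for EVERY prime `p` (no prime is excluded), for all polynomials
`F = c * ∏_j f_j ^ (m_j)` with integral coefficients, `c ≠ 0`, `m_j ≥ 1`, which satisfy a local
condition at every point `P` of `ℂ ^ n`: either the divisor `∑_j {f_j = 0}` has normal crossings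
at `P` (the gradients at `P` of those `f_j` which vanish at `P` are linearly independent), or `P`
is a weighted centre (`IsWeightedCentre`), for weights and initial forms which depend on `P`:

* there are weights `w_v ≥ 0`, at least two of them positive, and `g_j` is the lowest nonzero
  weighted homogeneous component of `f_j(P + x)`;
* near the origin of the space of the variables of weight `0` (where a polynomial `h` in these
  variables does not vanish), the `g_j` have normal crossings at all the points which are not on the
  subspace `L` where all variables of positive weight vanish, and the `f_j` do not have normal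
  crossings at the points of `P + L`.

If all the weights are positive, the last condition is that the `g_j` have normal crossings outside
of the origin. So the class contains, for instance, all the divisors with normal crossings outside
of finitely many points, such that at each one of these points the weighted initial forms of the
components cross normally outside of the origin; for instance, ordinary multiple points in any
dimension (`w = (1, …, 1)`: the tangent cones of the components cross normally in the projective
space), with an arbitrary number of components and with arbitrary multiplicities. The components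
themselves need not be weighted homogeneous, only their initial forms are, and the points can be
irrational. In general the locus without normal crossings has positive dimension.

The proof. For the `p`-adic integral: near a centre, the domain is cut into shells, the weighted
homotheties map the shells to one of them, where the integrand is a small perturbation of the
integrand of the initial forms; by normal crossings the integral does not change under small
perturbations. So the denominator is a product of the factors `1 - p ^ (-|w|) T ^ N`, with
`|w| = ∑_v w_v`, `N = ∑_j m_j deg_w(g_j)`, and `1 - p ^ (-1) T ^ (m_j)`. The normal crossings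
conditions descend from `ℂ` to `ℤ_p` with an embedding of `ℚ_p` in `ℂ`. For the Bernstein-Sato
polynomial: the functional equation for `F` at `s = - |w| / N` gives a functional equation for the
lowest component of `F(P + x)`, whose coefficients are in contradiction with the exactness of the
complex of the differential forms relative to the normal crossing divisor, for generic values of
the variables of weight `0`.
-/

set_option autoImplicit false

namespace Pool.Agent.Results.MP_5d9b3c_ag.WeightedCentres

open MvPolynomial Pool.Agent.W427.SMC Pool.Agent.H628R4.TP

/-- The hypersurfaces `{f_j = 0}`, `j : J`, have normal crossings at the point `P` of `ℂ ^ V`: the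
gradients at `P` of those `f_j` which vanish at `P` are linearly independent. -/
def NormalCrossingsAt {V J : Type} (f : J → MvPolynomial V ℂ) (P : V → ℂ) : Prop :=
  LinearIndependent ℂ fun (j : {j : J // eval P (f j) = 0}) (v : V) => eval P (pderiv v (f j.1))

/-- The polynomial `q(P + x)`. -/
noncomputable def shift {V : Type} (P : V → ℂ) (q : MvPolynomial V ℂ) : MvPolynomial V ℂ :=
  aeval (fun v => C (P v) + X v) q

/-- `g` is the component of weighted degree `e` of `q`, and all the components of lower weighted
degree vanish. -/
def IsInitialForm {V : Type} (w : V → ℕ) (e : ℕ) (q g : MvPolynomial V ℂ) : Prop :=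
  (∀ a < e, weightedHomogeneousComponent w a q = 0) ∧ weightedHomogeneousComponent w e q = g

/-- The point `P` is a weighted centre of the divisors `{f_j = 0}`, with weights `w v`, initial
forms `g j` of degree `e j`, and a polynomial `h` in the variables of weight zero. -/
structure IsWeightedCentre {V J : Type} (f : J → MvPolynomial V ℂ) (P : V → ℂ) (w : V → ℕ)
    (e : J → ℕ) (g : J → MvPolynomial V ℂ) (h : MvPolynomial V ℂ) : Prop where
  /-- At least two weights are positive. -/
  two : ∃ v v', v ≠ v' ∧ 0 < w v ∧ 0 < w v'
  /-- `g j` is the initial form of `f j (P + x)`, and `e j` is its degree. -/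
  initial : ∀ j, IsInitialForm w (e j) (shift P (f j)) (g j)
  /-- Only variables of weight zero occur in `h`. -/
  vars : ∀ v ∈ h.vars, w v = 0
  /-- `h` does not vanish at the origin. -/
  ne : eval 0 h ≠ 0
  /-- The initial forms have normal crossings at the points `y`, with `h y ≠ 0`, which are not on
  the subspace where the variables of positive weight vanish. -/
  normal : ∀ y, eval y h ≠ 0 → (∃ v, 0 < w v ∧ y v ≠ 0) → NormalCrossingsAt g y
  /-- The `f j` do not have normal crossings at the points `P + y`, with `h y ≠ 0` and with `y` on
  the subspace where the variables of positive weight vanish. -/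
  bad : ∀ y, eval y h ≠ 0 → (∀ v, 0 < w v → y v = 0) → ¬ NormalCrossingsAt f (P + y)

theorem nc_iff {V J : Type} [Fintype V] [DecidableEq V] [Fintype J] [DecidableEq J]
    (f : J → MvPolynomial V ℂ) (P : V → ℂ) :
    NormalCrossingsAt f P ↔ Pool.Agent.L0h21.SN.SNCAt' f P := by
  unfold Pool.Agent.L0h21.SN.SNCAt' NormalCrossingsAt
  have h1 : ⇑(aeval P : MvPolynomial V ℂ →ₐ[ℂ] ℂ) = ⇑(eval P) := by
    funext g
    rw [aeval_eq_eval]
  rw [h1]

theorem shift_eq {V : Type} [Fintype V] [DecidableEq V] (P : V → ℂ) (q : MvPolynomial V ℂ) :
    shift P q = Pool.Agent.L0h21.SN.trl P q := by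
  rw [shift, Pool.Agent.L0h21.SN.trl]
  congr 2
  funext v
  exact add_comm _ _

/-- Let `F = c * ∏_j f_j ^ (m_j)`, with nonconstant `f_j` with integral coefficients, `m_j > 0` and
`c ≠ 0`. Assume that at every point `P` of `ℂ ^ V` the `f_j` have normal crossings, or `P` is a
weighted centre of the `f_j`.
Then, for every prime `p`, the Poincare series of `F` is a rational function `Φ`, and for every pole
`T₀` of `Φ` the number `- log |T₀| / log p` is a root of every polynomial `b` which satisfies a
functional equation `b(s) F ^ s = P(s) F ^ (s + 1)` with `P(s)` in the Weyl algebra over `ℂ` with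
`s` adjoined; in particular, of the Bernstein-Sato polynomial of `F`. -/
theorem result {V J : Type} [Fintype V] [Fintype J]
    (f : J → MvPolynomial V ℤ) (hf : ∀ j, (f j).totalDegree ≠ 0)
    (hcentre : ∀ P : V → ℂ,
      NormalCrossingsAt (fun j => map (Int.castRingHom ℂ) (f j)) P ∨
      ∃ w e g h, IsWeightedCentre (fun j => map (Int.castRingHom ℂ) (f j)) P w e g h)
    (m : J → ℕ) (hm : ∀ j, 0 < m j) (c : ℤ) (hc : c ≠ 0)
    (F : MvPolynomial V ℤ) (hF : F = C c * ∏ j, f j ^ m j) (p : ℕ) (hp : p.Prime) :
    ∃ Φ : RatFunc ℂ,
      (Φ.denom : PowerSeries ℂ) * poincare p F = (Φ.num : PowerSeries ℂ) ∧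
      ∀ T₀ : ℂ, Φ.denom.IsRoot T₀ →
        ∀ b : Polynomial ℂ, IsBFunction (map (Int.castRingHom ℂ) F) b →
          b.IsRoot ((-Real.log ‖T₀‖ / Real.log p : ℝ) : ℂ) := by
  classical
  have : Fact p.Prime := ⟨hp⟩
  subst hF
  refine Pool.Agent.L0h21.SN.padic_centres p f hf m hm c hc fun P => ?_
  rcases hcentre P with h | ⟨w, e, g, h, H⟩
  · exact Or.inl ((nc_iff _ P).mp h)
  · refine Or.inr ⟨w, e, g, h, ?_, ?_, ?_, H.ne, ?_, ?_⟩
    · obtain ⟨v, v', h1, h2, h3⟩ := H.two
      exact Fintype.one_lt_card_iff.mpr ⟨⟨v, h2⟩, ⟨v', h3⟩, fun h => h1 (congrArg Subtype.val h)⟩
    · intro j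
      have h1 := H.initial j
      rw [shift_eq] at h1
      exact h1
    · intro d hd
      rw [Finsupp.weight_apply, Finsupp.sum_fintype _ _ (by simp)]
      refine Finset.sum_eq_zero fun v _ => ?_
      by_cases hv : d v = 0
      · rw [hv, zero_smul]
      · rw [H.vars v ((mem_vars_iff_mem_support v).mpr ⟨d, mem_support_iff.mpr hd,
          Finsupp.mem_support_iff.mpr hv⟩), smul_zero]
    · intro y hy hv
      rw [aeval_eq_eval] at hy
      exact (nc_iff _ y).mp (H.normal y hy hv)
    · intro y hy hv hs
      rw [aeval_eq_eval] at hy
      refine H.bad y hy hv ((nc_iff _ _).mpr ?_)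
      have h1 : (P + y) = fun v => y v + P v := by
        funext v
        rw [Pi.add_apply, add_comm]
      rw [h1]
      exact hs

end Pool.Agent.Results.MP_5d9b3c_ag.WeightedCentres
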